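import Pool.Agent.Helper99.SI.StD

set_option autoImplicit false

/-!
# Project SI, module D11: existence of the operator package
-/

namespace Pool.Agent.Helper74.SI

open Pool.Agent.Helper99.SI

namespace D11

section

variable {n : ℕ} {L : Type} [Ring L] [Algebra ℂ L] [StarRing L]

lemma finB (n r N : ℕ) : {i : Idx n r | ilen i < N}.Finite := by
  have h1 := List.finite_length_le (Fin n) N
  refine Set.Finite.subset (((h1.image (Sum.inl ∘ Sum.inl : W n → Idx n r)).union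
    (h1.image (Sum.inl ∘ Sum.inr : W n → Idx n r))).union
    (Set.finite_range (Sum.inr : Fin r → Idx n r))) ?_
  rintro ((ν | ν) | a) hi
  · exact Or.inl (Or.inl ⟨ν, Nat.le_of_lt (show ν.length < N from hi), rfl⟩)
  · exact Or.inl (Or.inr ⟨ν, Nat.le_of_lt (show ν.length < N from hi), rfl⟩)
  · exact Or.inr ⟨a, rfl⟩

lemma finR (B : ZGr L) (y : L) : (Set.range fun j : ℤ => B.p j y).Finite := by
  refine Set.Finite.subset (((B.fin y).image (fun j : ℤ => B.p j y)).union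
    (Set.finite_singleton (0 : L))) ?_
  rintro _ ⟨j, rfl⟩
  by_cases h : B.p j y = 0
  · exact Or.inr h
  · exact Or.inl ⟨j, h, rfl⟩

lemma lev (h1 : StA4) [StarModule ℂ L] [Nontrivial L] (D : Sys n L) (n1 M2 : ℕ) (hn1 : 1 ≤ n1)
    (hdeg : ∀ μ : W n, n1 ≤ μ.length → ∀ i < (1 : ℤ), D.b.p i (D.w μ) = 0) :
    ∃ M4 : ℕ, M2 ≤ M4 ∧ Lev4 D n1 M4 := by
  have h1' : ∀ y : L, ∃ l : ℕ, ∀ κ : W n, l ≤ κ.length → y * D.w κ ∈ D.S := by
    intro y
    obtain ⟨l, c, h⟩ := h1 n L D y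
    exact ⟨l, fun κ hκ => (h κ hκ).1⟩
  choose l hl using h1'
  let A : Set L := ⋃ κ ∈ {κ : W n | κ.length ≤ n1}, Set.range fun j : ℤ => D.b.p j (D.w κ)
  have hA : A.Finite := (List.finite_length_le (Fin n) n1).biUnion fun κ _ => finR _ _
  have hmem : ∀ (κ : W n) (j : ℤ), κ.length ≤ n1 → D.b.p j (D.w κ) ∈ A := by
    intro κ j hκ
    exact Set.mem_biUnion (show κ ∈ {κ : W n | κ.length ≤ n1} from hκ) ⟨j, rfl⟩
  have hB : (star '' A).Finite := hA.image _
  have hC : (Set.image2 (fun a b : L => a * star b) A A).Finite := hA.image2 _ hA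
  obtain ⟨N1, hN1⟩ := (hB.image l).bddAbove
  obtain ⟨N2, hN2⟩ := (hC.image l).bddAbove
  refine ⟨M2 + n1 + N1 + N2, by omega, hn1, hdeg, by omega, ?_, ?_⟩
  · intro ν κ hν hκ j
    have h2 : l (star (D.b.p j (D.w κ))) ≤ N1 :=
      hN1 ⟨_, ⟨_, hmem κ j hκ, rfl⟩, rfl⟩
    exact hl _ ν (by omega)
  · intro ν κ hν hκ i j
    have h2 : l (D.b.p i (D.w κ) * star (D.b.p j (D.w κ))) ≤ N2 :=
      hN2 ⟨_, ⟨_, hmem κ i hκ, _, hmem κ j hκ, rfl⟩, rfl⟩
    exact hl _ ν (by omega)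

end

section

variable {n r : ℕ}

lemma cast_zpow (u : ℝ) (j : ℕ) : ((u : ℂ) ^ (-2 * (j : ℤ))) = ((u ^ (-2 * (j : ℤ)) : ℝ) : ℂ) := by
  push_cast
  rfl

lemma Gop_apply (n1 : ℕ) (K : W n → ℝ → (L2 (Idx n r) →L[ℂ] L2 (Idx n r))) (u : ℝ)
    (z : L2 (Idx n r)) :
    Gop n1 K u z = z + ∑ j ∈ Finset.Ico 1 n1, ∑ κ : Fin j → Fin n,
      ((u : ℂ) ^ (-2 * (j : ℤ))) •
        (ContinuousLinearMap.adjoint (K (List.ofFn κ) (u ^ n1)) (K (List.ofFn κ) (u ^ n1) z)) := by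
  unfold Gop
  rw [add_apply, sum_apply]
  simp only [sum_apply, smul_apply,
    ContinuousLinearMap.comp_apply, one_apply_eq_self]

lemma Gop_inner (n1 : ℕ) (K : W n → ℝ → (L2 (Idx n r) →L[ℂ] L2 (Idx n r))) (u : ℝ)
    (y z : L2 (Idx n r)) :
    inner ℂ y (Gop n1 K u z) = inner ℂ y z + ∑ j ∈ Finset.Ico 1 n1, ∑ κ : Fin j → Fin n,
      ((u : ℂ) ^ (-2 * (j : ℤ))) *
        inner ℂ (K (List.ofFn κ) (u ^ n1) y) (K (List.ofFn κ) (u ^ n1) z) := by
  rw [Gop_apply, inner_add_right, inner_sum]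
  simp only [inner_sum, inner_smul_right, ContinuousLinearMap.adjoint_inner_right]

lemma Gop_inner' (n1 : ℕ) (K : W n → ℝ → (L2 (Idx n r) →L[ℂ] L2 (Idx n r))) (u : ℝ)
    (y z : L2 (Idx n r)) :
    inner ℂ (Gop n1 K u y) z = inner ℂ y z + ∑ j ∈ Finset.Ico 1 n1, ∑ κ : Fin j → Fin n,
      ((u : ℂ) ^ (-2 * (j : ℤ))) *
        inner ℂ (K (List.ofFn κ) (u ^ n1) y) (K (List.ofFn κ) (u ^ n1) z) := by
  rw [Gop_apply, inner_add_left, sum_inner]
  simp only [sum_inner, inner_smul_left, ContinuousLinearMap.adjoint_inner_left]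
  congr 1
  refine Finset.sum_congr rfl fun j _ => Finset.sum_congr rfl fun κ _ => ?_
  rw [cast_zpow, Complex.conj_ofReal]

lemma Gop_cont (n1 : ℕ) (K : W n → ℝ → (L2 (Idx n r) →L[ℂ] L2 (Idx n r)))
    (hK : ∀ κ : W n, κ.length ≤ n1 → ContinuousOn (K κ) (Set.Ioi 0)) :
    ContinuousOn (Gop n1 K) (Set.Ioi 0) := by
  unfold Gop
  refine continuousOn_const.add (continuousOn_finsetSum _ fun j hj =>
    continuousOn_finsetSum _ fun κ _ => ?_)
  have hk : (List.ofFn κ).length ≤ n1 := by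
    rw [List.length_ofFn]
    exact le_of_lt (Finset.mem_Ico.1 hj).2
  have h1 : ContinuousOn (fun u : ℝ => K (List.ofFn κ) (u ^ n1)) (Set.Ioi 0) := by
    refine (hK _ hk).comp (continuous_pow n1).continuousOn ?_
    intro u hu
    exact pow_pos (Set.mem_Ioi.1 hu) n1
  have h2 : ContinuousOn (fun u : ℝ => ContinuousLinearMap.adjoint (K (List.ofFn κ) (u ^ n1)))
      (Set.Ioi 0) :=
    (LinearIsometryEquiv.continuous ContinuousLinearMap.adjoint).comp_continuousOn h1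
  have h3 : ContinuousOn (fun u : ℝ => ((u : ℂ) ^ (-2 * (j : ℤ)))) (Set.Ioi 0) := by
    refine ContinuousOn.zpow₀ Complex.continuous_ofReal.continuousOn _ ?_
    intro u hu
    left
    exact Complex.ofReal_ne_zero.2 (ne_of_gt (Set.mem_Ioi.1 hu))
  exact h3.smul (h2.clm_comp h1)

end

end D11

theorem hD11 (h1 : StA4) (h2 : StA7) (h3 : StD3) (h4 : StD4) (h5 : StD7) (h6 : StD8)
    (h7 : StD9) (h8 : StD10) : StD11 := by
  intro n L _ _ _ _ _ D X0 m hm J0
  obtain ⟨n1, C, hn1, hdeg, -⟩ := h2 n L D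
  obtain ⟨M4, hM24, hlev⟩ := D11.lev h1 D n1 m.M2 hn1 hdeg
  obtain ⟨K, hK⟩ := h4 n L D m.r n1 M4 hlev
  obtain ⟨Ph, hPc, hPs, hPl⟩ := h3 n L D X0 m hm
  obtain ⟨M3a, hM3a, h7a⟩ := h5 n L D X0 m n1 M4 hm hlev hM24 K Ph
    (fun κ hκ => (hK κ hκ).2.1) hPs
  obtain ⟨M30, h8a⟩ := h6 n L D X0 m n1 M4 hm hlev hM24 K Ph
    (fun κ hκ => (hK κ hκ).2.1) hPs (fun κ hκ => (hK κ hκ).2.2) hPl
  obtain ⟨Cop, hC1, hC2, hC3⟩ := h7 n L D X0 m hm Ph hPs
  have hCG := h8 n L D X0 m n1 M4 hm hlev hM24 K Cop (fun κ hκ => (hK κ hκ).2.1) hC1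
  let M3 : ℕ := M3a + M30 + J0.sup ilen + 1
  have hfin : {i : Idx n m.r | ilen i < M3}.Finite := D11.finB n m.r M3
  have hmem : ∀ i : Idx n m.r, i ∈ hfin.toFinset ↔ ilen i < M3 := by
    intro i
    simp
  have hlt : ∀ j ∈ Finset.Ico 1 n1, ∀ κ : Fin j → Fin n, (List.ofFn κ).length ≤ n1 := by
    intro j hj κ
    rw [List.length_ofFn]
    exact le_of_lt (Finset.mem_Ico.1 hj).2
  refine ⟨⟨n1, hfin.toFinset, Ph, Gop n1 K, Cop, hn1, ?_, ?_, ?_, hPc, hPs, ?_, ?_, ?_, ?_, ?_, ?_,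
    hC1, hC2, hC3, hCG⟩⟩
  · intro i hi
    rw [hmem]
    have := Finset.le_sup (f := ilen) hi
    omega
  · intro i hi
    rw [hmem]
    omega
  · intro ν
    rw [hmem, hmem]
    exact Iff.rfl
  · exact D11.Gop_cont n1 K fun κ hκ => (hK κ hκ).1
  · intro u _ y z
    rw [D11.Gop_inner, D11.Gop_inner']
  · intro u hu z
    rw [D11.Gop_inner, Complex.add_re, Complex.re_sum]
    have e1 : (inner ℂ z z : ℂ).re = ‖z‖ ^ 2 := by
      rw [inner_self_eq_norm_sq_to_K]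
      norm_cast
    rw [e1]
    refine le_add_of_nonneg_right (Finset.sum_nonneg fun j _ => ?_)
    rw [Complex.re_sum]
    refine Finset.sum_nonneg fun κ _ => ?_
    rw [D11.cast_zpow, Complex.re_ofReal_mul, inner_self_eq_norm_sq_to_K]
    have e2 : (((‖(K (List.ofFn κ) (u ^ n1)) z‖ : ℝ) : ℂ) ^ 2).re =
        ‖(K (List.ofFn κ) (u ^ n1)) z‖ ^ 2 := by norm_cast
    refine mul_nonneg (zpow_nonneg hu.le _) ?_
    exact le_of_le_of_eq (sq_nonneg _) e2.symm
  · intro u hu i hi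
    rw [D11.Gop_apply]
    have h0 : ∀ j ∈ Finset.Ico 1 n1, ∀ κ : Fin j → Fin n,
        K (List.ofFn κ) (u ^ n1) (eb i) = 0 := by
      intro j hj κ
      refine lp.ext (funext fun k => ?_)
      rw [(hK _ (hlt j hj κ)).2.1 (u ^ n1) (pow_pos hu n1) (eb i) k]
      change _ = (0 : ℂ)
      refine finsum_eq_zero_of_forall_eq_zero fun i' => ?_
      by_cases hii : i' = i
      · subst hii
        have hk0 : D.kcol m.r M4 (u ^ n1) (List.ofFn κ) i' = 0 := by
          rcases i' with (ν | ν) | a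
          · have hν : ¬ M4 ≤ ν.length := by
              have : ν.length < m.M2 := hi
              omega
            simp [Sys.kcol, hν]
          · have hν : ¬ M4 ≤ ν.length := by
              have : ν.length < m.M2 := hi
              omega
            simp [Sys.kcol, hν]
          · rfl
        rw [hk0, Finsupp.coe_zero, Pi.zero_apply, zero_mul]
      · have he : (eb i : L2 (Idx n m.r)) i' = 0 := by
          unfold eb
          rw [lp.single_apply]
          exact Pi.single_eq_of_ne hii _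
        rw [he, mul_zero]
    rw [Finset.sum_eq_zero, add_zero]
    intro j hj
    refine Finset.sum_eq_zero fun κ _ => ?_
    rw [h0 j hj κ, map_zero, smul_zero]
  · intro u hu hu1 s hs hs1 z hz
    refine h7a u hu hu1 s hs hs1 z fun i hi => hz i ?_
    rw [hmem]
    omega
  · obtain ⟨C', hC'⟩ := h8a M3 (by omega)
    refine ⟨C', fun u hu hu1 s hs hs1 y z hy hz => hC' u hu hu1 s hs hs1 y z ?_ ?_⟩
    · intro i hi
      exact hy i ((hmem i).2 hi)
    · intro i hi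
      refine hz i fun h => ?_
      have := (hmem i).1 h
      omega

end Pool.Agent.Helper74.SI
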