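import Pool.Agent.Helper99.SI.StD

set_option autoImplicit false

/-!
# Project SI, module D9: the conjugation operator
-/

namespace Pool.Agent.Helper74.SI

open Pool.Agent.Helper99.SI

section

variable {n r : ℕ}

lemma finB (n r N : ℕ) : {i : Idx n r | ilen i ≤ N}.Finite := by
  have h1 := List.finite_length_le (Fin n) N
  refine Set.Finite.subset (((h1.image (Sum.inl ∘ Sum.inl : W n → Idx n r)).union
    (h1.image (Sum.inl ∘ Sum.inr : W n → Idx n r))).union
    (Set.finite_range (Sum.inr : Fin r → Idx n r))) ?_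
  rintro ((ν | ν) | a) hi
  · exact Or.inl (Or.inl ⟨ν, hi, rfl⟩)
  · exact Or.inl (Or.inr ⟨ν, hi, rfl⟩)
  · exact Or.inr ⟨a, rfl⟩

/-- The swap of the two copies. -/
def sw : Idx n r ≃ Idx n r := Equiv.sumCongr (Equiv.sumComm _ _) (Equiv.refl _)

open Classical in
/-- Truncation of a function to a finite set. -/
noncomputable def tr {ι : Type} (F : Finset ι) (z : ι → ℂ) : ι →₀ ℂ :=
  Finsupp.onFinset F (fun k => if k ∈ F then z k else 0) (by
    intro k hk
    by_contra h
    simp [h] at hk)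

lemma tr_apply {ι : Type} (F : Finset ι) (z : ι → ℂ) {k : ι} (hk : k ∈ F) : tr F z k = z k := by
  simp [tr, hk]

end

section

variable {n : ℕ} {L : Type} [Ring L] [Algebra ℂ L] [StarRing L]

omit [Ring L] [Algebra ℂ L] [StarRing L] in
lemma Cf_add (m : MData n L) (t : ℝ) (y z : Idx n m.r → ℂ) :
    m.Cf t (y + z) = m.Cf t y + m.Cf t z := by
  funext i
  rcases i with (ν | ν) | b
  · simp only [MData.Cf, Pi.add_apply, star_add, add_mul, Finset.sum_add_distrib]
    ring
  · simp only [MData.Cf, Pi.add_apply, star_add, add_mul, Finset.sum_add_distrib]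
    ring
  · simp only [MData.Cf, Pi.add_apply, star_add, add_mul, Finset.sum_add_distrib]

omit [Ring L] [Algebra ℂ L] [StarRing L] in
lemma Cf_zero (m : MData n L) (t : ℝ) : m.Cf t 0 = 0 := by
  funext i
  rcases i with (ν | ν) | b
  · simp [MData.Cf]
  · simp [MData.Cf]
  · simp [MData.Cf]

omit [Ring L] [Algebra ℂ L] [StarRing L] in
lemma Cl_add (m : MData n L) (t : ℝ) (y z : Idx n m.r →₀ ℂ) :
    m.Cl t (y + z) = m.Cl t y + m.Cl t z := by
  unfold MData.Cl
  exact Finsupp.sum_add_index' (fun i => by simp) (fun i a b => by rw [star_add, add_smul])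

omit [Ring L] [Algebra ℂ L] [StarRing L] in
lemma Cl_eq (m : MData n L) (t : ℝ) (z : Idx n m.r →₀ ℂ) :
    (m.Cl t z : Idx n m.r → ℂ) = m.Cf t z := by
  induction z using Finsupp.induction_linear with
  | zero =>
    rw [Finsupp.coe_zero, Cf_zero]
    simp [MData.Cl]
  | add y z hy hz =>
    rw [Cl_add, Finsupp.coe_add, Finsupp.coe_add, Cf_add, hy, hz]
  | single i c =>
    have h0 : m.Cl t (Finsupp.single i c) = star c • m.Cc t i := by
      unfold MData.Cl
      exact Finsupp.sum_single_index (by simp)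
    rw [h0]
    funext k
    rw [Finsupp.smul_apply]
    classical
    rcases i with (μ | μ) | a
    · rcases k with (ν | ν) | b
      · simp [MData.Cf, MData.Cc]
      · by_cases hν : μ = ν
        · simp [MData.Cf, MData.Cc, hν]
        · simp [MData.Cf, MData.Cc, hν]
      · simp [MData.Cf, MData.Cc]
    · rcases k with (ν | ν) | b
      · by_cases hν : μ = ν
        · simp [MData.Cf, MData.Cc, hν]
        · simp [MData.Cf, MData.Cc, hν]
      · simp [MData.Cf, MData.Cc]
      · simp [MData.Cf, MData.Cc]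
    · rcases k with (ν | ν) | b <;>
        simp [MData.Cf, Finsupp.single_apply, apply_ite]

omit [Ring L] [Algebra ℂ L] [StarRing L] in
/-- locality of Cf -/
lemma Cf_loc (m : MData n L) (t : ℝ) (N : ℕ) (y z : Idx n m.r → ℂ)
    (h : ∀ i : Idx n m.r, ilen i ≤ N → y i = z i) (i : Idx n m.r) (hi : ilen i ≤ N) :
    m.Cf t y i = m.Cf t z i := by
  have ha : ∀ a : Fin m.r, y (Sum.inr a) = z (Sum.inr a) := fun a => h _ (Nat.zero_le _)
  rcases i with (ν | ν) | b
  · simp only [MData.Cf]
    rw [h (Sum.inl (Sum.inr ν)) hi]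
    simp only [ha]
  · simp only [MData.Cf]
    rw [h (Sum.inl (Sum.inl ν)) hi]
    simp only [ha]
  · simp only [MData.Cf, ha]

omit [Ring L] [Algebra ℂ L] [StarRing L] in
lemma Fl_apply (m : MData n L) (t : ℝ) (z : Idx n m.r →₀ ℂ) (k : Idx n m.r) :
    m.Fl t z k = ∑ᶠ i : Idx n m.r, m.Fc t i k * z i := by
  unfold MData.Fl
  rw [Finsupp.linearCombination_apply, Finsupp.sum_apply, Finsupp.sum]
  rw [finsum_eq_sum_of_support_subset (s := z.support)]
  · exact Finset.sum_congr rfl fun i _ => by rw [Finsupp.smul_apply, smul_eq_mul, mul_comm]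
  · intro i hi
    rw [Function.mem_support] at hi
    rw [Finset.mem_coe, Finsupp.mem_support_iff]
    intro h
    exact hi (by rw [h, mul_zero])

omit [Ring L] [Algebra ℂ L] [StarRing L] in
/-- locality of Phi -/
lemma Ph_loc {m : MData n L} (c : ℕ)
    (hc : ∀ j i i', m.F j i i' ≠ 0 → ilen i' ≤ ilen i + c ∧ ilen i ≤ ilen i' + c)
    (t : ℝ) (N : ℕ) (y z : Idx n m.r → ℂ)
    (h : ∀ i : Idx n m.r, ilen i ≤ N + c → y i = z i) (k : Idx n m.r) (hk : ilen k ≤ N) :
    ∑ᶠ i : Idx n m.r, m.Fc t i k * y i = ∑ᶠ i : Idx n m.r, m.Fc t i k * z i := by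
  refine finsum_congr fun i => ?_
  by_cases hi : ilen i ≤ N + c
  · rw [h i hi]
  · have h0 : m.Fc t i k = 0 := by
      unfold MData.Fc
      rw [Finsupp.finsetSum_apply]
      refine Finset.sum_eq_zero fun j _ => ?_
      rw [Finsupp.smul_apply]
      by_contra h1
      have h2 : m.F j i k ≠ 0 := by
        intro h3
        exact h1 (by rw [h3, smul_zero])
      have h3 := (hc j i k h2).2
      omega
    rw [h0, zero_mul, zero_mul]

omit [Ring L] [Algebra ℂ L] [StarRing L] in
lemma Cf_mem (m : MData n L) (t : ℝ) (z : L2 (Idx n m.r)) :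
    Memℓp (E := fun _ : Idx n m.r => ℂ) (m.Cf t (fun k => z k)) 2 := by
  have hz : Summable fun i : Idx n m.r => ‖z i‖ ^ (2 : ENNReal).toReal :=
    (memℓp_gen_iff (by norm_num)).1 (lp.memℓp z)
  have hz' : Memℓp (E := fun _ : Idx n m.r => ℂ)
      (fun i => star (z (sw i))) 2 := by
    refine memℓp_gen ?_
    simp only [norm_star]
    exact (sw (n := n) (r := m.r)).summable_iff.2 hz
  have hf : ∀ p : Idx n m.r →₀ ℂ, Memℓp (E := fun _ : Idx n m.r => ℂ) (⇑p) 2 := by
    intro p
    refine (memℓp_zero ?_).of_exponent_ge (zero_le)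
    exact p.hasFiniteSupport
  let p : Idx n m.r →₀ ℂ := ∑ a : Fin m.r, (star (z (Sum.inr a)) • m.Cc t (Sum.inr a) -
    Finsupp.single (Sum.inr a) (star (z (Sum.inr a))))
  have h := hz'.add (hf p)
  convert h using 1
  funext i
  have hp : ∀ i : Idx n m.r, p i = ∑ a : Fin m.r, (star (z (Sum.inr a)) * m.Cc t (Sum.inr a) i -
    (Finsupp.single (Sum.inr a : Idx n m.r) (star (z (Sum.inr a)))) i) := by
    intro i
    simp only [p]
    rw [Finsupp.finsetSum_apply]
    rfl
  rw [Pi.add_apply, hp]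
  rcases i with (ν | ν) | b
  · simp [MData.Cf, sw]
  · simp [MData.Cf, sw]
  · classical
    simp [MData.Cf, sw, Finsupp.single_apply]

end

theorem hD9 : StD9 := by
  intro n L _ _ _ _ _ D X0 m hm Ph hPh
  refine ⟨fun t z => ⟨m.Cf t (fun k => z k), Cf_mem m t z⟩, fun t _ z i => rfl, ?_, ?_⟩
  · intro t ht z
    refine lp.ext (funext fun i => ?_)
    change m.Cf t (m.Cf t (fun k => z k)) i = z i
    have hB := finB n m.r (ilen i)
    let z' := tr hB.toFinset (fun k => z k)
    have hz' : ∀ k : Idx n m.r, ilen k ≤ ilen i → z k = z' k := by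
      intro k hk
      exact (tr_apply _ (fun k => z k) (by simpa using hk)).symm
    have h1 : m.Cf t (m.Cf t (fun k => z k)) i = m.Cf t (m.Cf t z') i := by
      refine Cf_loc m t (ilen i) _ _ ?_ i le_rfl
      intro k hk
      exact Cf_loc m t (ilen i) _ _ hz' k hk
    rw [h1, ← Cl_eq, ← Cl_eq, hm.Cinv t ht, ← hz' i le_rfl]
  · intro t ht z
    obtain ⟨c, hc⟩ := hm.band
    refine lp.ext (funext fun i => ?_)
    have e2 : (Ph t ⟨m.Cf t (fun k => z k), Cf_mem m t z⟩) i =
        ∑ᶠ i' : Idx n m.r, m.Fc t i' i * m.Cf t (fun k => z k) i' :=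
      hPh t ht ⟨m.Cf t (fun k => z k), Cf_mem m t z⟩ i
    change m.Cf t (fun k => Ph t z k) i = (Ph t ⟨m.Cf t (fun k => z k), Cf_mem m t z⟩) i
    rw [e2]
    have e1 : (fun k => Ph t z k) = fun k => ∑ᶠ i' : Idx n m.r, m.Fc t i' k * z i' := by
      funext k
      exact hPh t ht z k
    rw [e1]
    have hB := finB n m.r (ilen i + c)
    let z' := tr hB.toFinset (fun k => z k)
    have hz' : ∀ k : Idx n m.r, ilen k ≤ ilen i + c → z k = z' k := by
      intro k hk
      exact (tr_apply _ (fun k => z k) (by simpa using hk)).symm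
    have h1 : m.Cf t (fun k => ∑ᶠ i' : Idx n m.r, m.Fc t i' k * z i') i =
        m.Cf t (m.Fl t z') i := by
      refine Cf_loc m t (ilen i) _ _ ?_ i le_rfl
      intro k hk
      rw [Fl_apply]
      exact Ph_loc c hc t (ilen i) _ _ hz' k hk
    have h2 : ∑ᶠ i' : Idx n m.r, m.Fc t i' i * m.Cf t (fun k => z k) i' =
        m.Fl t (m.Cl t z') i := by
      rw [Fl_apply, Cl_eq]
      refine Ph_loc c hc t (ilen i) _ _ ?_ i le_rfl
      intro k hk
      exact Cf_loc m t (ilen i + c) _ _ hz' k hk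
    rw [h1, h2, ← Cl_eq, hm.Ccomm t ht]

end Pool.Agent.Helper74.SI
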